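import Pool.Agent.Helper8.RP.PhiClose

/-!
# Dynamical Mordell-Lang for curves and regular polynomial maps: ideals of small colength (N3)
-/

set_option autoImplicit false

namespace Pool.Agent.Helper8.RP

open MvPolynomial Filter Topology Pool.Agent.Helper65.RP

section local_
variable {K L Ω : Type} [Field K] [Field L] [Algebra K L] [NormedField Ω]
  [Algebra K Ω] [Algebra L Ω] [IsScalarTower K L Ω] {N e : ℕ}
  {𝒰 : Ultrafilter ℕ} {i₀ : Fin N}
  {F : Fin N → MvPolynomial (Fin N) K} {q : Fin N → L}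
  {s : ℕ → ℕ → ℝ} {z : ℕ → ℕ → Fin N → K}

/-- N3 -/
theorem exists_ideal (he : 2 ≤ e) (hF : ∀ i, (F i).totalDegree ≤ e) (hq : q i₀ = 1)
    {c : L} (hc : c ≠ 0) (hfix : ∀ i, aeval q (homogeneousComponent e (F i)) = c * q i)
    (hs : ∀ m, ∀ᶠ n in (𝒰 : Filter ℕ), s m n = e * s (m + 1) n)
    (hz : ∀ m, ∀ᶠ n in (𝒰 : Filter ℕ), ∀ i, z m n i = eval (z (m + 1) n) (F i))
    (hlev : ∀ m, Lev Ω 𝒰 (s m) (z m) i₀) {κ : ℝ} (hκ : 0 < κ) (hκ1 : κ ≤ 1) {m₀ : ℕ}
    (hcen : ∀ m, m₀ ≤ m → ∀ i, GeOrd 𝒰 (s m) (fun n =>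
      algebraMap K Ω (z m n i / z m n i₀) - algebraMap L Ω (q i)) κ) {ν : ℕ}
    (hmult : ∀ n : ℕ, Module.finrank L (MvPolynomial (Fin N) L ⧸
      (sliceIdeal (fun i => homogeneousComponent e (F i)) q i₀ ⊔ ptIdeal q ^ n)) ≤ ν) (j : ℕ) :
    ∃ (I : Ideal (MvPolynomial (Option (Fin N)) L)) (m₁ : ℕ),
      FiniteDimensional L (MvPolynomial (Option (Fin N)) L ⧸ I) ∧
      Module.finrank L (MvPolynomial (Option (Fin N)) L ⧸ I) ≤ (e * ν) ^ j ∧
      ∀ G ∈ I, ∀ m, m₁ ≤ m → GeOrd 𝒰 (s m) (fun n =>
        aeval (fun o => algebraMap K Ω (pt (z m n) i₀ o)) G) (e ^ j * κ) := by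
  have hord0 : ∀ m, m₀ ≤ m → ∀ G : MvPolynomial (Option (Fin N)) L,
      GeOrd 𝒰 (s m) (fun n => aeval (fun o => algebraMap K Ω (pt (z m n) i₀ o)) G) 0 := by
    intro m hm G
    have := pow_ge (q := q) hlev hκ hκ1 hcen hm (n := 0) (G := G) (by
      rw [pow_zero, Ideal.one_eq_top]; trivial)
    rwa [Nat.cast_zero, zero_mul] at this
  have key : ∀ j : ℕ, ∃ (I : Ideal (MvPolynomial (Option (Fin N)) L)) (m₁ a : ℕ),
      m₀ ≤ m₁ ∧ ptIdeal' q ^ a ≤ I ∧
      FiniteDimensional L (MvPolynomial (Option (Fin N)) L ⧸ I) ∧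
      Module.finrank L (MvPolynomial (Option (Fin N)) L ⧸ I) ≤ (e * ν) ^ j ∧
      ∀ G ∈ I, ∀ m, m₁ ≤ m → GeOrd 𝒰 (s m) (fun n =>
        aeval (fun o => algebraMap K Ω (pt (z m n) i₀ o)) G) (e ^ j * κ) := by
    intro j
    induction j with
    | zero =>
      obtain ⟨h1, h2⟩ := base (N := N) q
      refine ⟨ptIdeal' q, m₀, 1, le_rfl, by rw [pow_one], h1, by rwa [pow_zero], ?_⟩
      intro G hG m hm
      have := pow_ge (q := q) hlev hκ hκ1 hcen hm (n := 1) (G := G) (by rwa [pow_one])
      rw [Nat.cast_one, one_mul] at this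
      have h3 : (e : ℝ) ^ 0 * κ = κ := by rw [pow_zero, one_mul]
      rw [h3]
      exact this
    | succ j ih =>
      obtain ⟨I, m₁, a, hm1, ha, hfd, hdim, hord⟩ := ih
      have := hfd
      set n := e ^ (j + 1) with hn
      obtain ⟨h1, h2⟩ := dim_chain (F := F) (e := e) (by omega) hq hc hfix hmult n ha hdim
      refine ⟨_, m₁ + 1, n, by omega, ?_, h1, h2, ?_⟩
      · refine le_trans ?_ le_sup_right
        unfold cI
        exact le_sup_right
      · intro G hG m hm
        obtain ⟨m', rfl⟩ : ∃ m', m = m' + 1 := ⟨m - 1, by omega⟩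
        have hm' : m₁ ≤ m' := by omega
        have hm0 : m₀ ≤ m' := by omega
        have hm01 : m₀ ≤ m' + 1 := by omega
        have hcast : ((n : ℕ) : ℝ) = (e : ℝ) ^ (j + 1) := by
          rw [hn, Nat.cast_pow]
        have hst := (hlev (m' + 1)).hs
        let J := ordIdeal hst (fun k o => algebraMap K Ω (pt (z (m' + 1) k) i₀ o))
          (hord0 (m' + 1) hm01) ((e : ℝ) ^ (j + 1) * κ)
        have hle : I.map (phi e F i₀ c n : MvPolynomial (Option (Fin N)) L →+*
            MvPolynomial (Option (Fin N)) L) ⊔ cI q i₀ n ≤ J := by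
          refine sup_le ?_ ?_
          · rw [Ideal.map_le_iff_le_comap]
            intro H hH
            rw [Ideal.mem_comap]
            have e1 := hord H hH m' hm'
            have e2 : GeOrd 𝒰 (s (m' + 1)) (fun k =>
                aeval (fun o => algebraMap K Ω (pt (z m' k) i₀ o)) H)
                ((e : ℝ) ^ (j + 1) * κ) := by
              intro ε hε
              have hepos : (0 : ℝ) < e := by
                have : 0 < e := by omega
                exact_mod_cast this
              filter_upwards [e1 (ε / e) (by positivity), hs m'] with k h3 h4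
              refine h3.trans (le_of_eq ?_)
              rw [h4, pow_succ]
              congr 1
              field_simp
            have e3 := phi_close (F := F) he hF hq hc hfix hs hz hlev hκ hκ1 hcen hm0
              (n := n) (μ := (e : ℝ) ^ (j + 1) * κ) (by rw [hcast]) H
            have e4 := Pool.Agent.Helper13.RP.GeOrd.add hst e3 e2
            refine Pool.Agent.Helper13.RP.GeOrd.congr e4 (Eventually.of_forall fun k => ?_)
            rw [Pi.add_apply, sub_add_cancel]
            rfl
          · unfold cI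
            refine sup_le ?_ ?_
            · rw [Ideal.span_le, Set.singleton_subset_iff]
              refine Pool.Agent.Helper13.RP.GeOrd.of_zero ?_
              filter_upwards [(hlev (m' + 1)).top.1] with k hk
              have hk0 : z (m' + 1) k i₀ ≠ 0 := by
                intro h0
                apply hk
                rw [h0, map_zero]
              have : pt (z (m' + 1) k) i₀ (some i₀) = 1 := div_self hk0
              rw [map_sub, aeval_X, this, map_one, map_one, sub_self]
            · intro H hH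
              have := pow_ge (q := q) hlev hκ hκ1 hcen hm01 (n := n) (G := H) hH
              rw [hcast] at this
              exact this
        exact hle hG
  obtain ⟨I, m₁, a, _, _, h3, h4, h5⟩ := key j
  exact ⟨I, m₁, h3, h4, h5⟩

end local_

end Pool.Agent.Helper8.RP
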