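import Pool.Agent.Helper65.RP.Defs2
import Pool.Agent.Helper74.RP.Chain

/-!
# Dynamical Mordell-Lang for curves and regular polynomial maps: dimension of the ideals (N3)
-/

set_option autoImplicit false

namespace Pool.Agent.Helper8.RP

open MvPolynomial Filter Topology Pool.Agent.Helper65.RP

section quot
variable {L : Type} [Field L]

theorem finite_of_le {P : Type} [CommRing P] [Algebra L P] {I J : Ideal P} (h : I ≤ J)
    [FiniteDimensional L (P ⧸ I)] :
    FiniteDimensional L (P ⧸ J) ∧ Module.finrank L (P ⧸ J) ≤ Module.finrank L (P ⧸ I) := by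
  have hs : Function.Surjective (Ideal.Quotient.factorₐ L h).toLinearMap := by
    intro x
    obtain ⟨y, hy⟩ := Ideal.Quotient.factor_surjective h x
    exact ⟨y, hy⟩
  exact ⟨Module.Finite.of_surjective _ hs, LinearMap.finrank_le_finrank_of_surjective hs⟩

theorem finite_of_surj {P Q : Type} [CommRing P] [Algebra L P] [CommRing Q] [Algebra L Q]
    (ψ : P →ₐ[L] Q) (J : Ideal P) (hJ : ∀ a ∈ J, ψ a = 0) (hψ : Function.Surjective ψ)
    [FiniteDimensional L (P ⧸ J)] :
    FiniteDimensional L Q ∧ Module.finrank L Q ≤ Module.finrank L (P ⧸ J) := by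
  have hs : Function.Surjective (Ideal.Quotient.liftₐ J ψ hJ).toLinearMap := by
    intro x
    obtain ⟨y, hy⟩ := hψ x
    refine ⟨Ideal.Quotient.mk J y, ?_⟩
    rw [← hy]
    rfl
  exact ⟨Module.Finite.of_surjective _ hs, LinearMap.finrank_le_finrank_of_surjective hs⟩

end quot

section alg
variable {K L : Type} [Field K] [Field L] [Algebra K L] {N : ℕ}

/-- the point `(0, q)` -/
def opt (q : Fin N → L) : Option (Fin N) → L := fun o => o.elim 0 q

/-- the truncated inverse of `lam` -/
noncomputable def lamS (e : ℕ) (p : MvPolynomial (Fin N) K) (c : L) (n : ℕ) :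
    MvPolynomial (Option (Fin N)) L :=
  C c⁻¹ * ∑ l ∈ Finset.range n, (1 - C c⁻¹ * hmg L e p) ^ l

/-- the map `phi` -/
noncomputable def phi (e : ℕ) (F : Fin N → MvPolynomial (Fin N) K) (i₀ : Fin N) (c : L) (n : ℕ) :
    MvPolynomial (Option (Fin N)) L →ₐ[L] MvPolynomial (Option (Fin N)) L :=
  bind₁ (fun o => o.elim (X none ^ e * lamS e (F i₀) c n)
    (fun i => hmg L e (F i) * lamS e (F i₀) c n))

/-- the ideal of the slice and of high order -/
noncomputable def cI (q : Fin N → L) (i₀ : Fin N) (n : ℕ) :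
    Ideal (MvPolynomial (Option (Fin N)) L) :=
  Ideal.span {X (some i₀) - 1} ⊔ ptIdeal' q ^ n

theorem eval_hmg (e : ℕ) (p : MvPolynomial (Fin N) K) (q : Fin N → L) :
    eval (opt q) (hmg L e p) = aeval q (homogeneousComponent e p) := by
  unfold hmg
  rw [map_sum, Finset.sum_range_succ, Finset.sum_eq_zero, zero_add]
  · rw [Nat.sub_self, pow_zero, one_mul, eval_rename, eval_map]
    rfl
  · intro k hk
    rw [Finset.mem_range] at hk
    rw [map_mul, map_pow, eval_X]
    have : opt q none = (0 : L) := rfl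
    rw [this, zero_pow (by omega), zero_mul]

theorem hmg_sub (e : ℕ) (p : MvPolynomial (Fin N) K) :
    hmg L e p - rename some (map (algebraMap K L) (homogeneousComponent e p)) ∈
      Ideal.span {(X none : MvPolynomial (Option (Fin N)) L)} := by
  unfold hmg
  rw [Finset.sum_range_succ, Nat.sub_self, pow_zero, one_mul, add_sub_cancel_right]
  apply Ideal.sum_mem
  intro k hk
  rw [Finset.mem_range] at hk
  apply Ideal.mul_mem_right
  obtain ⟨j, hj⟩ : ∃ j, e - k = j + 1 := ⟨e - k - 1, by omega⟩
  rw [hj, pow_succ]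
  exact Ideal.mul_mem_left _ _ (Ideal.mem_span_singleton_self _)

theorem X_none_mem (q : Fin N → L) : (X none : MvPolynomial (Option (Fin N)) L) ∈ ptIdeal' q :=
  Ideal.subset_span (Set.mem_insert _ _)

theorem X_some_mem (q : Fin N → L) (i : Fin N) :
    (X (some i) - C (q i) : MvPolynomial (Option (Fin N)) L) ∈ ptIdeal' q :=
  Ideal.subset_span (Set.mem_insert_of_mem _ ⟨i, rfl⟩)

theorem sub_eval_mem (q : Fin N → L) (G : MvPolynomial (Option (Fin N)) L) :
    G - C (eval (opt q) G) ∈ ptIdeal' q := by
  induction G using MvPolynomial.induction_on with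
  | C a => rw [eval_C, sub_self]; exact zero_mem _
  | add f g hf hg =>
    have : f + g - C (eval (opt q) (f + g)) =
        (f - C (eval (opt q) f)) + (g - C (eval (opt q) g)) := by
      rw [map_add, map_add]
      ring
    rw [this]
    exact add_mem hf hg
  | mul_X f o hf =>
    have : f * X o - C (eval (opt q) (f * X o)) =
        (f - C (eval (opt q) f)) * X o + C (eval (opt q) f) * (X o - C (opt q o)) := by
      rw [map_mul, eval_X, map_mul]
      ring
    rw [this]
    refine add_mem (Ideal.mul_mem_right _ _ hf) (Ideal.mul_mem_left _ _ ?_)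
    cases o with
    | none =>
      have : C (opt q none) = (0 : MvPolynomial (Option (Fin N)) L) := by
        have h0 : opt q none = 0 := rfl
        rw [h0, C_0]
      rw [this, sub_zero]
      exact X_none_mem q
    | some i => exact X_some_mem q i

theorem mem_ptIdeal (q : Fin N → L) {G : MvPolynomial (Option (Fin N)) L}
    (h : eval (opt q) G = 0) : G ∈ ptIdeal' q := by
  have := sub_eval_mem q G
  rwa [h, C_0, sub_zero] at this

theorem exists_const (q : Fin N → L) (x : MvPolynomial (Option (Fin N)) L) :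
    ∃ c : L, x - algebraMap L (MvPolynomial (Option (Fin N)) L) c ∈ ptIdeal' q :=
  ⟨_, sub_eval_mem q x⟩

/-- the base of the induction -/
theorem base (q : Fin N → L) :
    FiniteDimensional L (MvPolynomial (Option (Fin N)) L ⧸ ptIdeal' q) ∧
      Module.finrank L (MvPolynomial (Option (Fin N)) L ⧸ ptIdeal' q) ≤ 1 := by
  have hs : Function.Surjective (Algebra.linearMap L
      (MvPolynomial (Option (Fin N)) L ⧸ ptIdeal' q)) := by
    intro x
    obtain ⟨y, rfl⟩ := Ideal.Quotient.mk_surjective x
    refine ⟨eval (opt q) y, ?_⟩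
    have h := (Ideal.Quotient.eq (I := ptIdeal' q)).2 (sub_eval_mem q y)
    rw [h]
    rfl
  refine ⟨Module.Finite.of_surjective _ hs, ?_⟩
  have := LinearMap.finrank_le_finrank_of_surjective hs
  rwa [Module.finrank_self] at this

variable {e : ℕ} {F : Fin N → MvPolynomial (Fin N) K} {q : Fin N → L} {i₀ : Fin N} {c : L}

theorem one_sub_mem (hq : q i₀ = 1) (hc : c ≠ 0)
    (hfix : ∀ i, aeval q (homogeneousComponent e (F i)) = c * q i) :
    1 - C c⁻¹ * hmg L e (F i₀) ∈ ptIdeal' q := by
  apply mem_ptIdeal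
  rw [map_sub, map_one, map_mul, eval_C, eval_hmg, hfix, hq, mul_one, inv_mul_cancel₀ hc, sub_self]

theorem lam_mul (p : MvPolynomial (Fin N) K) (n : ℕ) :
    hmg L e p * lamS e p c n = 1 - (1 - C c⁻¹ * hmg L e p) ^ n := by
  unfold lamS
  set x := 1 - C c⁻¹ * hmg L e p with hx
  have h1 : hmg L e p * C c⁻¹ = 1 - x := by rw [hx]; ring
  rw [← mul_assoc, h1, mul_neg_geom_sum]

theorem phi_X_none (n : ℕ) : phi e F i₀ c n (X none) = X none ^ e * lamS e (F i₀) c n := by
  unfold phi
  rw [bind₁_X_right]
  rfl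

theorem phi_X_some (n : ℕ) (i : Fin N) :
    phi e F i₀ c n (X (some i)) = hmg L e (F i) * lamS e (F i₀) c n := by
  unfold phi
  rw [bind₁_X_right]
  rfl

/-- the ideal `(t ^ a, h_i) + c_n` -/
noncomputable def hI (e : ℕ) (F : Fin N → MvPolynomial (Fin N) K) (q : Fin N → L) (i₀ : Fin N)
    (n : ℕ) : Ideal (MvPolynomial (Option (Fin N)) L) :=
  Ideal.span (Set.range fun i => hmg L e (F i) - C (q i) * hmg L e (F i₀)) ⊔ cI q i₀ n

theorem le_map_phi (hq : q i₀ = 1) (hc : c ≠ 0)
    (hfix : ∀ i, aeval q (homogeneousComponent e (F i)) = c * q i) (n : ℕ) :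
    Ideal.span {(X none : MvPolynomial (Option (Fin N)) L) ^ e} ⊔ hI e F q i₀ n ≤
      (ptIdeal' q).map (phi e F i₀ c n : MvPolynomial (Option (Fin N)) L →+*
        MvPolynomial (Option (Fin N)) L) ⊔ cI q i₀ n := by
  set T := (ptIdeal' q).map (phi e F i₀ c n : MvPolynomial (Option (Fin N)) L →+*
        MvPolynomial (Option (Fin N)) L) ⊔ cI q i₀ n with hT
  have hx : (1 - C c⁻¹ * hmg L e (F i₀)) ^ n ∈ T := by
    apply Ideal.mem_sup_right
    unfold cI
    apply Ideal.mem_sup_right
    exact Ideal.pow_mem_pow (one_sub_mem hq hc hfix) n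
  have hlam : 1 = hmg L e (F i₀) * lamS e (F i₀) c n + (1 - C c⁻¹ * hmg L e (F i₀)) ^ n := by
    rw [lam_mul]
    ring
  have h1 : X none ^ e * lamS e (F i₀) c n ∈ T := by
    apply Ideal.mem_sup_left
    have := Ideal.mem_map_of_mem (phi e F i₀ c n : MvPolynomial (Option (Fin N)) L →+*
        MvPolynomial (Option (Fin N)) L) (X_none_mem q)
    rwa [AlgHom.coe_toRingHom, phi_X_none] at this
  have h2 : ∀ i, hmg L e (F i) * lamS e (F i₀) c n - C (q i) ∈ T := by
    intro i
    apply Ideal.mem_sup_left
    have := Ideal.mem_map_of_mem (phi e F i₀ c n : MvPolynomial (Option (Fin N)) L →+*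
        MvPolynomial (Option (Fin N)) L) (X_some_mem q i)
    rw [AlgHom.coe_toRingHom, map_sub, phi_X_some] at this
    have h3 : phi e F i₀ c n (C (q i)) = C (q i) := by
      unfold phi
      rw [bind₁_C_right]
    rwa [h3] at this
  refine sup_le ?_ ?_
  · rw [Ideal.span_le, Set.singleton_subset_iff]
    have : (X none : MvPolynomial (Option (Fin N)) L) ^ e =
        hmg L e (F i₀) * (X none ^ e * lamS e (F i₀) c n) +
          X none ^ e * (1 - C c⁻¹ * hmg L e (F i₀)) ^ n := by
      calc (X none : MvPolynomial (Option (Fin N)) L) ^ e = X none ^ e * 1 := by ring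
        _ = X none ^ e * (hmg L e (F i₀) * lamS e (F i₀) c n +
            (1 - C c⁻¹ * hmg L e (F i₀)) ^ n) := by rw [← hlam]
        _ = _ := by ring
    rw [SetLike.mem_coe, this]
    exact add_mem (Ideal.mul_mem_left _ _ h1) (Ideal.mul_mem_left _ _ hx)
  · unfold hI
    refine sup_le ?_ le_sup_right
    rw [Ideal.span_le]
    rintro _ ⟨i, rfl⟩
    have : hmg L e (F i) - C (q i) * hmg L e (F i₀) =
        hmg L e (F i₀) * (hmg L e (F i) * lamS e (F i₀) c n - C (q i)) +
          hmg L e (F i) * (1 - C c⁻¹ * hmg L e (F i₀)) ^ n := by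
      calc hmg L e (F i) - C (q i) * hmg L e (F i₀)
          = hmg L e (F i) * 1 - C (q i) * hmg L e (F i₀) := by ring
        _ = hmg L e (F i) * (hmg L e (F i₀) * lamS e (F i₀) c n +
            (1 - C c⁻¹ * hmg L e (F i₀)) ^ n) - C (q i) * hmg L e (F i₀) := by rw [← hlam]
        _ = _ := by ring
    simp only [SetLike.mem_coe]
    rw [this]
    exact add_mem (Ideal.mul_mem_left _ _ (h2 i)) (Ideal.mul_mem_left _ _ hx)

/-- the slice of the fibre -/
theorem slice_dim {ν : ℕ} (n : ℕ)
    [FiniteDimensional L (MvPolynomial (Fin N) L ⧸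
      (sliceIdeal (fun i => homogeneousComponent e (F i)) q i₀ ⊔ ptIdeal q ^ n))]
    (hmult : Module.finrank L (MvPolynomial (Fin N) L ⧸
      (sliceIdeal (fun i => homogeneousComponent e (F i)) q i₀ ⊔ ptIdeal q ^ n)) ≤ ν) :
    FiniteDimensional L (MvPolynomial (Option (Fin N)) L ⧸
      (Ideal.span {(X none : MvPolynomial (Option (Fin N)) L)} ⊔ hI e F q i₀ n)) ∧
    Module.finrank L (MvPolynomial (Option (Fin N)) L ⧸
      (Ideal.span {(X none : MvPolynomial (Option (Fin N)) L)} ⊔ hI e F q i₀ n)) ≤ ν := by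
  set T := Ideal.span {(X none : MvPolynomial (Option (Fin N)) L)} ⊔ hI e F q i₀ n with hT
  let ψ : MvPolynomial (Fin N) L →ₐ[L] (MvPolynomial (Option (Fin N)) L ⧸ T) :=
    (Ideal.Quotient.mkₐ L T).comp (rename some)
  have hsurj : Function.Surjective ψ := by
    intro x
    obtain ⟨y, rfl⟩ := Ideal.Quotient.mk_surjective x
    have hr : ∀ y : MvPolynomial (Option (Fin N)) L, ∃ z, ψ z = Ideal.Quotient.mk T y := by
      intro y
      induction y using MvPolynomial.induction_on with
      | C a =>
        refine ⟨C a, ?_⟩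
        show Ideal.Quotient.mk T (rename some (C a)) = _
        rw [rename_C]
      | add f g hf hg =>
        obtain ⟨a, ha⟩ := hf
        obtain ⟨b, hb⟩ := hg
        exact ⟨a + b, by rw [map_add, ha, hb, map_add]⟩
      | mul_X f o hf =>
        obtain ⟨a, ha⟩ := hf
        cases o with
        | none =>
          refine ⟨0, ?_⟩
          rw [map_zero, map_mul]
          have : Ideal.Quotient.mk T (X none) = 0 := by
            rw [Ideal.Quotient.eq_zero_iff_mem]
            exact Ideal.mem_sup_left (Ideal.mem_span_singleton_self _)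
          rw [this, mul_zero]
        | some i =>
          refine ⟨a * X i, ?_⟩
          rw [map_mul, ha, map_mul]
          congr 1
          show Ideal.Quotient.mk T (rename some (X i)) = _
          rw [rename_X]
    exact hr y
  have hker : ∀ a ∈ sliceIdeal (fun i => homogeneousComponent e (F i)) q i₀ ⊔ ptIdeal q ^ n,
      ψ a = 0 := by
    have hle : sliceIdeal (fun i => homogeneousComponent e (F i)) q i₀ ⊔ ptIdeal q ^ n ≤
        Ideal.comap (rename some : MvPolynomial (Fin N) L →ₐ[L] _) T := by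
      refine sup_le ?_ ?_
      · unfold sliceIdeal
        rw [Ideal.span_le]
        rintro f (rfl | ⟨i, rfl⟩)
        · rw [SetLike.mem_coe, Ideal.mem_comap, map_sub, rename_X, map_one]
          apply Ideal.mem_sup_right
          unfold hI cI
          exact Ideal.mem_sup_right (Ideal.mem_sup_left (Ideal.mem_span_singleton_self _))
        · rw [SetLike.mem_coe, Ideal.mem_comap, map_sub, map_mul, rename_C]
          have h1 := hmg_sub (L := L) e (F i)
          have h2 := hmg_sub (L := L) e (F i₀)
          have h3 : hmg L e (F i) - C (q i) * hmg L e (F i₀) ∈ T := by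
            apply Ideal.mem_sup_right
            unfold hI
            exact Ideal.mem_sup_left (Ideal.subset_span ⟨i, rfl⟩)
          have h4 : (rename some (map (algebraMap K L) (homogeneousComponent e (F i))) -
              C (q i) * rename some (map (algebraMap K L) (homogeneousComponent e (F i₀))) :
              MvPolynomial (Option (Fin N)) L) =
              (hmg L e (F i) - C (q i) * hmg L e (F i₀)) -
              (hmg L e (F i) - rename some (map (algebraMap K L)
                (homogeneousComponent e (F i)))) +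
              C (q i) * (hmg L e (F i₀) - rename some (map (algebraMap K L)
                (homogeneousComponent e (F i₀)))) := by ring
          rw [h4]
          exact add_mem (sub_mem h3 (Ideal.mem_sup_left h1))
            (Ideal.mul_mem_left _ _ (Ideal.mem_sup_left h2))
      · have h1 : (ptIdeal q).map (rename some : MvPolynomial (Fin N) L →ₐ[L]
            MvPolynomial (Option (Fin N)) L) ≤ ptIdeal' q := by
          unfold ptIdeal
          rw [Ideal.map_span, Ideal.span_le]
          rintro _ ⟨_, ⟨i, rfl⟩, rfl⟩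
          simp only [SetLike.mem_coe]
          rw [map_sub, rename_X, rename_C]
          exact X_some_mem q i
        rw [← Ideal.map_le_iff_le_comap, Ideal.map_pow]
        refine (Ideal.pow_right_mono h1 n).trans ?_
        rw [hT]
        unfold hI cI
        exact le_sup_right.trans (le_sup_right.trans le_sup_right)
    intro a ha
    exact Ideal.Quotient.eq_zero_iff_mem.2 (hle ha)
  obtain ⟨h1, h2⟩ := finite_of_surj ψ _ hker hsurj
  exact ⟨h1, h2.trans hmult⟩

/-- one step of the induction: the fibre of `phi` over the centre -/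
theorem dim_step (he : 1 ≤ e) (hq : q i₀ = 1) (hc : c ≠ 0)
    (hfix : ∀ i, aeval q (homogeneousComponent e (F i)) = c * q i) {ν : ℕ}
    (hmult : ∀ n : ℕ, Module.finrank L (MvPolynomial (Fin N) L ⧸
      (sliceIdeal (fun i => homogeneousComponent e (F i)) q i₀ ⊔ ptIdeal q ^ n)) ≤ ν) (n : ℕ) :
    FiniteDimensional L (MvPolynomial (Option (Fin N)) L ⧸
      ((ptIdeal' q).map (phi e F i₀ c n : MvPolynomial (Option (Fin N)) L →+*
        MvPolynomial (Option (Fin N)) L) ⊔ cI q i₀ n)) ∧
    Module.finrank L (MvPolynomial (Option (Fin N)) L ⧸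
      ((ptIdeal' q).map (phi e F i₀ c n : MvPolynomial (Option (Fin N)) L →+*
        MvPolynomial (Option (Fin N)) L) ⊔ cI q i₀ n)) ≤ e * ν := by
  have := Pool.Agent.Helper74.RP.finite_quot_pow q n
    (sliceIdeal (fun i => homogeneousComponent e (F i)) q i₀)
  obtain ⟨h1, h2⟩ := slice_dim (F := F) (i₀ := i₀) n (hmult n)
  have := h1
  obtain ⟨h3, h4⟩ := Pool.Agent.Helper74.RP.finrank_pow (L := L)
    (X none : MvPolynomial (Option (Fin N)) L) (hI e F q i₀ n) he
  have := h3
  obtain ⟨h5, h6⟩ := finite_of_le (L := L) (le_map_phi (F := F) hq hc hfix n)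
  exact ⟨h5, h6.trans (h4.trans (Nat.mul_le_mul_left e h2))⟩

/-- the induction step for the dimension -/
theorem dim_chain (he : 1 ≤ e) (hq : q i₀ = 1) (hc : c ≠ 0)
    (hfix : ∀ i, aeval q (homogeneousComponent e (F i)) = c * q i) {ν : ℕ}
    (hmult : ∀ n : ℕ, Module.finrank L (MvPolynomial (Fin N) L ⧸
      (sliceIdeal (fun i => homogeneousComponent e (F i)) q i₀ ⊔ ptIdeal q ^ n)) ≤ ν) (n : ℕ)
    {I : Ideal (MvPolynomial (Option (Fin N)) L)} {a j : ℕ} (hI : ptIdeal' q ^ a ≤ I)
    [FiniteDimensional L (MvPolynomial (Option (Fin N)) L ⧸ I)]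
    (hdim : Module.finrank L (MvPolynomial (Option (Fin N)) L ⧸ I) ≤ (e * ν) ^ j) :
    FiniteDimensional L (MvPolynomial (Option (Fin N)) L ⧸
      (I.map (phi e F i₀ c n : MvPolynomial (Option (Fin N)) L →+*
        MvPolynomial (Option (Fin N)) L) ⊔ cI q i₀ n)) ∧
    Module.finrank L (MvPolynomial (Option (Fin N)) L ⧸
      (I.map (phi e F i₀ c n : MvPolynomial (Option (Fin N)) L →+*
        MvPolynomial (Option (Fin N)) L) ⊔ cI q i₀ n)) ≤ (e * ν) ^ (j + 1) := by
  obtain ⟨h1, h2⟩ := dim_step (F := F) he hq hc hfix hmult n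
  have := h1
  obtain ⟨h3, h4⟩ := Pool.Agent.Helper74.RP.finrank_chain (phi e F i₀ c n) (ptIdeal' q) I
    (cI q i₀ n) (exists_const q) hI
  refine ⟨h3, h4.trans ?_⟩
  rw [pow_succ]
  exact Nat.mul_le_mul hdim h2

end alg

end Pool.Agent.Helper8.RP
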