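import Pool.Agent.Helper8.RP.PowGe

/-!
# Dynamical Mordell-Lang for curves and regular polynomial maps: the map `phi` and the level
relation (N3)
-/

set_option autoImplicit false

namespace Pool.Agent.Helper8.RP

open MvPolynomial Filter Topology Pool.Agent.Helper65.RP Pool.Agent.Helper13.RP

section local_
variable {K L Ω : Type} [Field K] [Field L] [Algebra K L] [NormedField Ω]
  [Algebra K Ω] [Algebra L Ω] [IsScalarTower K L Ω] {N e : ℕ}

/-- value of the homogenised polynomial -/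
theorem hmg_value {p : MvPolynomial (Fin N) K} (hp : p.totalDegree ≤ e) {x : Fin N → K}
    {i₀ : Fin N} (hx : x i₀ ≠ 0) :
    aeval (fun o => algebraMap K Ω (pt x i₀ o)) (hmg L e p) =
      (algebraMap K Ω (x i₀))⁻¹ ^ e * algebraMap K Ω (eval x p) := by
  have hT : algebraMap K Ω (x i₀) ≠ 0 := by
    rwa [Ne, map_eq_zero]
  have h1 := sum_scale (L := K) hp hT (fun i => algebraMap K Ω (x i / x i₀))
  have h2 : (fun i => algebraMap K Ω (x i₀) * algebraMap K Ω (x i / x i₀)) =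
      fun i => algebraMap K Ω (x i) := by
    funext i
    rw [← map_mul, mul_div_cancel₀ _ hx]
  have h3 : aeval (fun i => algebraMap K Ω (x i)) p = algebraMap K Ω (eval x p) := by
    have := MvPolynomial.aeval_algebraMap_apply Ω x p
    rw [← MvPolynomial.coe_aeval_eq_eval]
    exact this
  rw [h2, h3] at h1
  have h4 : aeval (fun o => algebraMap K Ω (pt x i₀ o)) (hmg L e p) =
      ∑ k ∈ Finset.range (e + 1), (algebraMap K Ω (x i₀))⁻¹ ^ (e - k) *
        aeval (fun i => algebraMap K Ω (x i / x i₀)) (homogeneousComponent k p) := by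
    unfold hmg
    rw [map_sum]
    refine Finset.sum_congr rfl fun k _ => ?_
    rw [map_mul, map_pow, aeval_X, aeval_rename]
    have e1 : algebraMap K Ω (pt x i₀ none) = (algebraMap K Ω (x i₀))⁻¹ := by
      have h : pt x i₀ none = (x i₀)⁻¹ := rfl
      rw [h, map_inv₀]
    rw [e1]
    congr 1
    rw [aeval_map_algebraMap]
    rfl
  rw [h4, h1, ← mul_assoc, ← mul_pow, inv_mul_cancel₀ hT, one_pow, one_mul]

variable {𝒰 : Ultrafilter ℕ} {i₀ : Fin N}
  {F : Fin N → MvPolynomial (Fin N) K} {q : Fin N → L}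
  {s : ℕ → ℕ → ℝ} {z : ℕ → ℕ → Fin N → K}

theorem top_ne (hlev : ∀ m, Lev Ω 𝒰 (s m) (z m) i₀) (m : ℕ) :
    ∀ᶠ n in (𝒰 : Filter ℕ), z m n i₀ ≠ 0 := by
  filter_upwards [(hlev m).top.1] with k hk h0
  apply hk
  rw [h0, map_zero]

/-- the values of `phi` at the variables -/
theorem phi_var (hF : ∀ i, (F i).totalDegree ≤ e) {c : L}
    (hz : ∀ m, ∀ᶠ n in (𝒰 : Filter ℕ), ∀ i, z m n i = eval (z (m + 1) n) (F i))
    (hlev : ∀ m, Lev Ω 𝒰 (s m) (z m) i₀) (m n : ℕ) (o : Option (Fin N)) :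
    ∀ᶠ k in (𝒰 : Filter ℕ),
      aeval (fun o => algebraMap K Ω (pt (z (m + 1) k) i₀ o)) (phi e F i₀ c n (X o)) -
        algebraMap K Ω (pt (z m k) i₀ o) =
      - (algebraMap K Ω (pt (z m k) i₀ o) *
        aeval (fun o => algebraMap K Ω (pt (z (m + 1) k) i₀ o))
          ((1 - C c⁻¹ * hmg L e (F i₀)) ^ n)) := by
  filter_upwards [top_ne hlev m, top_ne hlev (m + 1), hz m] with k h0 h1 h2
  set w : Option (Fin N) → Ω := fun o => algebraMap K Ω (pt (z (m + 1) k) i₀ o) with hw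
  have hT : algebraMap K Ω (z (m + 1) k i₀) ≠ 0 := by rwa [Ne, map_eq_zero]
  have hZ : algebraMap K Ω (z m k i₀) ≠ 0 := by rwa [Ne, map_eq_zero]
  have hval : ∀ i, aeval w (hmg L e (F i)) =
      (algebraMap K Ω (z (m + 1) k i₀))⁻¹ ^ e * algebraMap K Ω (z m k i) := by
    intro i
    rw [hw, hmg_value (hF i) h1, ← h2 i]
  have hlam : aeval w (hmg L e (F i₀)) * aeval w (lamS e (F i₀) c n) =
      1 - aeval w ((1 - C c⁻¹ * hmg L e (F i₀)) ^ n) := by
    rw [← map_mul, lam_mul, map_sub, map_one]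
  have hlam0 : aeval w (hmg L e (F i₀)) ≠ 0 := by
    rw [hval]
    exact mul_ne_zero (pow_ne_zero _ (inv_ne_zero hT)) hZ
  cases o with
  | none =>
    rw [phi_X_none, map_mul, map_pow, aeval_X]
    have e1 : algebraMap K Ω (pt (z m k) i₀ none) = (algebraMap K Ω (z m k i₀))⁻¹ := by
      have h : pt (z m k) i₀ none = (z m k i₀)⁻¹ := rfl
      rw [h, map_inv₀]
    have e2 : w none = (algebraMap K Ω (z (m + 1) k i₀))⁻¹ := by
      have h : w none = algebraMap K Ω ((z (m + 1) k i₀)⁻¹) := rfl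
      rw [h, map_inv₀]
    have e3 : w none ^ e = (algebraMap K Ω (z m k i₀))⁻¹ * aeval w (hmg L e (F i₀)) := by
      rw [hval, e2]
      field_simp
    rw [e1, e3, mul_assoc, hlam]
    ring
  | some i =>
    rw [phi_X_some, map_mul]
    have e1 : algebraMap K Ω (pt (z m k) i₀ (some i)) =
        algebraMap K Ω (z m k i) * (algebraMap K Ω (z m k i₀))⁻¹ := by
      have h : pt (z m k) i₀ (some i) = z m k i / z m k i₀ := rfl
      rw [h, map_div₀, div_eq_mul_inv]
    have e3 : aeval w (hmg L e (F i)) = algebraMap K Ω (z m k i) *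
        (algebraMap K Ω (z m k i₀))⁻¹ * aeval w (hmg L e (F i₀)) := by
      rw [hval, hval]
      field_simp
    rw [e1, e3, mul_assoc, hlam]
    ring

/-- the map `phi` at level `m + 1` is close to the identity at level `m` -/
theorem phi_close (he : 2 ≤ e) (hF : ∀ i, (F i).totalDegree ≤ e) (hq : q i₀ = 1)
    {c : L} (hc : c ≠ 0) (hfix : ∀ i, aeval q (homogeneousComponent e (F i)) = c * q i)
    (hs : ∀ m, ∀ᶠ n in (𝒰 : Filter ℕ), s m n = e * s (m + 1) n)
    (hz : ∀ m, ∀ᶠ n in (𝒰 : Filter ℕ), ∀ i, z m n i = eval (z (m + 1) n) (F i))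
    (hlev : ∀ m, Lev Ω 𝒰 (s m) (z m) i₀) {κ : ℝ} (hκ : 0 < κ) (hκ1 : κ ≤ 1) {m₀ : ℕ}
    (hcen : ∀ m, m₀ ≤ m → ∀ i, GeOrd 𝒰 (s m) (fun n =>
      algebraMap K Ω (z m n i / z m n i₀) - algebraMap L Ω (q i)) κ) {m n : ℕ} (hm : m₀ ≤ m)
    {μ : ℝ} (hμ : μ ≤ n * κ) (G : MvPolynomial (Option (Fin N)) L) :
    GeOrd 𝒰 (s (m + 1)) (fun k =>
      aeval (fun o => algebraMap K Ω (pt (z (m + 1) k) i₀ o)) (phi e F i₀ c n G) -
      aeval (fun o => algebraMap K Ω (pt (z m k) i₀ o)) G) μ := by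
  have hst := (hlev (m + 1)).hs
  have hepos : (0 : ℝ) < e := by
    have : 0 < e := by omega
    exact_mod_cast this
  have hm' : m₀ ≤ m + 1 := by omega
  have hlow : ∀ G : MvPolynomial (Option (Fin N)) L, GeOrd 𝒰 (s (m + 1)) (fun k =>
      aeval (fun o => algebraMap K Ω (pt (z m k) i₀ o)) G) 0 := by
    intro G
    have := GeOrd.scale hepos (hs m) (ord_zero hlev hκ hcen hm G)
    rwa [mul_zero] at this
  have hx : GeOrd 𝒰 (s (m + 1)) (fun k =>
      aeval (fun o => algebraMap K Ω (pt (z (m + 1) k) i₀ o))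
        ((1 - C c⁻¹ * hmg L e (F i₀)) ^ n)) μ :=
    GeOrd.mono hst (pow_ge hlev hκ hκ1 hcen hm'
      (Ideal.pow_mem_pow (one_sub_mem hq hc hfix) n)) hμ
  have hvar : ∀ o : Option (Fin N), GeOrd 𝒰 (s (m + 1)) (fun k =>
      aeval (fun o => algebraMap K Ω (pt (z (m + 1) k) i₀ o)) (phi e F i₀ c n (X o)) -
      algebraMap K Ω (pt (z m k) i₀ o)) μ := by
    intro o
    have h1 := hlow (X o)
    have h2 := GeOrd.neg (GeOrd.mul_left h1 hx)
    refine GeOrd.congr h2 ?_
    filter_upwards [phi_var (c := c) hF hz hlev m n o] with k hk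
    rw [hk, Pi.neg_apply, Pi.mul_apply, aeval_X]
  induction G using MvPolynomial.induction_on with
  | C a =>
    refine GeOrd.of_zero (Eventually.of_forall fun k => ?_)
    have h3 : phi e F i₀ c n (C a) = C a := by
      unfold phi
      rw [bind₁_C_right]
    rw [h3, aeval_C, aeval_C, sub_self]
  | add f g hf hg =>
    refine GeOrd.congr (GeOrd.add hst hf hg) (Eventually.of_forall fun k => ?_)
    rw [Pi.add_apply, map_add, map_add, map_add]
    ring
  | mul_X f o hf =>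
    have h1 := GeOrd.mul_right hf (ord_zero hlev hκ hcen hm' (phi e F i₀ c n (X o)))
    have h2 := GeOrd.mul_left (hlow f) (hvar o)
    refine GeOrd.congr (GeOrd.add hst h1 h2) (Eventually.of_forall fun k => ?_)
    rw [Pi.add_apply, Pi.mul_apply, Pi.mul_apply, map_mul, map_mul, map_mul, aeval_X]
    ring

end local_

end Pool.Agent.Helper8.RP
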