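import Pool.Agent.Helper8.RP.DimIdeal
import Pool.Agent.Helper13.RP.Approx

/-!
# Dynamical Mordell-Lang for curves and regular polynomial maps: orders on powers of the ideal
of the centre (N3)
-/

set_option autoImplicit false

namespace Pool.Agent.Helper8.RP

open MvPolynomial Filter Topology Pool.Agent.Helper65.RP Pool.Agent.Helper13.RP

section ordIdeal
variable {L Ω : Type} [Field L] [NormedField Ω] [Algebra L Ω] {σ : Type}

/-- the ideal of the polynomials of order at least `α` along a sequence of points of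
nonnegative order -/
def ordIdeal {𝒰 : Ultrafilter ℕ} {s : ℕ → ℝ} (hs : Tendsto s (𝒰 : Filter ℕ) atTop)
    (w : ℕ → σ → Ω)
    (h0 : ∀ G : MvPolynomial σ L, GeOrd 𝒰 s (fun n => aeval (w n) G) 0) (α : ℝ) :
    Ideal (MvPolynomial σ L) where
  carrier := {G | GeOrd 𝒰 s (fun n => aeval (w n) G) α}
  add_mem' := by
    intro F G hF hG
    have := GeOrd.add hs hF hG
    refine GeOrd.congr this (Eventually.of_forall fun n => ?_)
    rw [Pi.add_apply, map_add]
  zero_mem' := by
    refine GeOrd.of_zero (Eventually.of_forall fun n => ?_)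
    rw [map_zero]
  smul_mem' := by
    intro F G hG
    have := GeOrd.mul_left (h0 F) hG
    refine GeOrd.congr this (Eventually.of_forall fun n => ?_)
    rw [Pi.mul_apply, smul_eq_mul, map_mul]

end ordIdeal

section local_
variable {K L Ω : Type} [Field K] [Field L] [Algebra K L] [NormedField Ω]
  [Algebra K Ω] [Algebra L Ω] {N : ℕ}
  {𝒰 : Ultrafilter ℕ} {i₀ : Fin N} {q : Fin N → L}
  {s : ℕ → ℕ → ℝ} {z : ℕ → ℕ → Fin N → K}

theorem pt_none_ge (hlev : ∀ m, Lev Ω 𝒰 (s m) (z m) i₀) (m : ℕ) :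
    GeOrd 𝒰 (s m) (fun k => algebraMap K Ω (pt (z m k) i₀ none)) 1 := by
  have := inv_top (hlev m).hs (hlev m).top
  refine GeOrd.congr this (Eventually.of_forall fun n => ?_)
  have h : pt (z m n) i₀ none = (z m n i₀)⁻¹ := rfl
  rw [h, map_inv₀]

theorem pt_ge_zero (hlev : ∀ m, Lev Ω 𝒰 (s m) (z m) i₀) {κ : ℝ} (hκ : 0 < κ) {m₀ : ℕ}
    (hcen : ∀ m, m₀ ≤ m → ∀ i, GeOrd 𝒰 (s m) (fun n =>
      algebraMap K Ω (z m n i / z m n i₀) - algebraMap L Ω (q i)) κ) {m : ℕ} (hm : m₀ ≤ m)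
    (o : Option (Fin N)) : GeOrd 𝒰 (s m) (fun k => algebraMap K Ω (pt (z m k) i₀ o)) 0 := by
  have hst := (hlev m).hs
  cases o with
  | none => exact GeOrd.mono hst (pt_none_ge hlev m) zero_le_one
  | some i =>
    have h1 := GeOrd.mono hst (hcen m hm i) hκ.le
    have h2 : GeOrd 𝒰 (s m) (fun _ => algebraMap L Ω (q i)) 0 := GeOrd.cst hst _
    have h3 := GeOrd.add hst h1 h2
    refine GeOrd.congr h3 (Eventually.of_forall fun n => ?_)
    rw [Pi.add_apply, sub_add_cancel]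
    rfl

theorem ord_zero (hlev : ∀ m, Lev Ω 𝒰 (s m) (z m) i₀) {κ : ℝ} (hκ : 0 < κ) {m₀ : ℕ}
    (hcen : ∀ m, m₀ ≤ m → ∀ i, GeOrd 𝒰 (s m) (fun n =>
      algebraMap K Ω (z m n i / z m n i₀) - algebraMap L Ω (q i)) κ) {m : ℕ} (hm : m₀ ≤ m)
    (G : MvPolynomial (Option (Fin N)) L) :
    GeOrd 𝒰 (s m) (fun k => aeval (fun o => algebraMap K Ω (pt (z m k) i₀ o)) G) 0 := by
  have hst := (hlev m).hs
  induction G using MvPolynomial.induction_on with
  | C a =>
    refine GeOrd.congr (GeOrd.cst hst (algebraMap L Ω a)) (Eventually.of_forall fun n => ?_)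
    rw [aeval_C]
  | add f g hf hg =>
    refine GeOrd.congr (GeOrd.add hst hf hg) (Eventually.of_forall fun n => ?_)
    rw [Pi.add_apply, map_add]
  | mul_X f o hf =>
    refine GeOrd.congr (GeOrd.mul_left hf (pt_ge_zero hlev hκ hcen hm o))
      (Eventually.of_forall fun n => ?_)
    rw [Pi.mul_apply, map_mul, aeval_X]

/-- elements of the `n`-th power of the ideal of the centre have order at least `n κ` -/
theorem pow_ge (hlev : ∀ m, Lev Ω 𝒰 (s m) (z m) i₀) {κ : ℝ} (hκ : 0 < κ) (hκ1 : κ ≤ 1) {m₀ : ℕ}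
    (hcen : ∀ m, m₀ ≤ m → ∀ i, GeOrd 𝒰 (s m) (fun n =>
      algebraMap K Ω (z m n i / z m n i₀) - algebraMap L Ω (q i)) κ) {m : ℕ} (hm : m₀ ≤ m)
    {n : ℕ} {G : MvPolynomial (Option (Fin N)) L} (hG : G ∈ ptIdeal' q ^ n) :
    GeOrd 𝒰 (s m) (fun k => aeval (fun o => algebraMap K Ω (pt (z m k) i₀ o)) G) (n * κ) := by
  have hst := (hlev m).hs
  have h0 := ord_zero hlev hκ hcen hm
  have hM : ptIdeal' q ≤ ordIdeal hst (fun k o => algebraMap K Ω (pt (z m k) i₀ o)) h0 κ := by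
    unfold ptIdeal'
    rw [Ideal.span_le]
    rintro _ (rfl | ⟨i, rfl⟩)
    · refine GeOrd.congr (GeOrd.mono hst (pt_none_ge hlev m) hκ1)
        (Eventually.of_forall fun n => ?_)
      rw [aeval_X]
    · refine GeOrd.congr (hcen m hm i) (Eventually.of_forall fun n => ?_)
      rw [map_sub, aeval_X, aeval_C]
      rfl
  have hpow : ∀ n : ℕ, ptIdeal' q ^ n ≤
      ordIdeal hst (fun k o => algebraMap K Ω (pt (z m k) i₀ o)) h0 (n * κ) := by
    intro n
    induction n with
    | zero =>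
      intro H _
      have := h0 H
      have h3 : ((0 : ℕ) : ℝ) * κ = 0 := by rw [Nat.cast_zero, zero_mul]
      rw [h3]
      exact this
    | succ n ih =>
      rw [pow_succ, Ideal.mul_le]
      intro a ha b hb
      have h1 : GeOrd 𝒰 (s m) _ _ := ih ha
      have h2 : GeOrd 𝒰 (s m) _ _ := hM hb
      have h3 := GeOrd.mul h1 h2
      have h4 : ((n + 1 : ℕ) : ℝ) * κ = n * κ + κ := by
        push_cast
        ring
      rw [h4]
      refine GeOrd.congr h3 (Eventually.of_forall fun k => ?_)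
      rw [Pi.mul_apply, map_mul]
  exact hpow n hG

end local_

end Pool.Agent.Helper8.RP
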